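import Mathlib

set_option autoImplicit false

namespace Pool.Agent.Results.MP_ad6ded_lc.OneGrowingLetter

variable {α : Type*}

/-- `x` is `k`-automatic: its `k`-kernel is a finite set of sequences. -/
def IsAutomatic (k : ℕ) (x : ℕ → α) : Prop :=
  {y : ℕ → α | ∃ e j, j < k ^ e ∧ y = fun n => x (k ^ e * n + j)}.Finite

/-- The finite word `u` is a prefix of the infinite word `x`. -/
def IsPrefix (u : List α) (x : ℕ → α) : Prop := ∀ i (h : i < u.length), u[i] = x i

/-- The action of the morphism `φ` on finite words. -/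
def app (φ : α → List α) (u : List α) : List α := u.flatMap φ

/-- `X n` is the word `x_{n+1}` of the problem. -/
def X : ℕ → List ℕ
  | 0 => [1, 2]
  | n + 1 => X n ++ X n ++ (X n).reverse ++ (X n).reverse ++ [2]

/-- The standing hypotheses. -/
structure Sys (φ : α → List α) (s : α) (v : List α) (σ : α → α) (x : ℕ → α) : Prop where
  hv : s ∈ v
  hσ : ∀ c, c ≠ s → σ c ≠ s
  h1 : φ s = s :: v
  h2 : ∀ c, c ≠ s → φ c = [σ c]
  hx : ∀ n, IsPrefix ((app φ)^[n] [s]) x

lemma iter_append (φ : α → List α) (n : ℕ) (u w : List α) :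
    (app φ)^[n] (u ++ w) = (app φ)^[n] u ++ (app φ)^[n] w := by
  induction n generalizing u w with
  | zero => rfl
  | succ n ih =>
    simp only [Function.iterate_succ, Function.comp, app, List.flatMap_append]
    exact ih _ _

section
variable {φ : α → List α} {s : α} {v : List α} {σ : α → α} {x : ℕ → α}

lemma app_single (c : α) : app φ [c] = φ c := by simp [app]

lemma iter_single (S : Sys φ s v σ x) (n : ℕ) : ∀ c, c ≠ s → (app φ)^[n] [c] = [σ^[n] c] := by
  induction n with
  | zero => intro c _; rfl
  | succ n ih =>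
    intro c hc
    rw [Function.iterate_succ_apply, app_single, S.h2 c hc, ih _ (S.hσ c hc),
      Function.iterate_succ_apply]

/-- `ℓ n` is the length of `φ^n(s)`. -/
def ell (φ : α → List α) (s : α) (n : ℕ) : ℕ := ((app φ)^[n] [s]).length

lemma len_pos (S : Sys φ s v σ x) (n : ℕ) : ∀ c, 1 ≤ ((app φ)^[n] [c]).length := by
  induction n with
  | zero => intro c; simp
  | succ n ih =>
    intro c
    rw [Function.iterate_succ_apply, app_single]
    by_cases hc : c = s
    · subst hc
      rw [S.h1, show (c :: v : List α) = [c] ++ v from rfl, iter_append, List.length_append]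
      have := ih c
      omega
    · rw [S.h2 c hc]; exact ih _

lemma ell_lt (S : Sys φ s v σ x) (n : ℕ) : n < ell φ s n := by
  induction n with
  | zero => simp [ell]
  | succ n ih =>
    unfold ell at *
    rw [Function.iterate_succ_apply, app_single, S.h1, show (s :: v : List α) = [s] ++ v from rfl,
      iter_append, List.length_append]
    obtain ⟨p, q, hpq⟩ := List.append_of_mem S.hv
    rw [hpq, show p ++ s :: q = p ++ ([s] ++ q) from rfl, iter_append, iter_append,
      List.length_append, List.length_append]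
    omega

lemma pref_of_prefix {u w : List α} (h : u <+: w) (hw : IsPrefix w x) : IsPrefix u x := by
  intro i hi
  obtain ⟨t, rfl⟩ := h
  rw [← hw i (by rw [List.length_append]; omega), List.getElem_append_left]

lemma prefix_of_pref {u w : List α} (hu : IsPrefix u x) (hw : IsPrefix w x)
    (hl : u.length ≤ w.length) : u <+: w := by
  rw [List.prefix_iff_eq_take]
  apply List.ext_getElem
  · simp [hl]
  · intro i h1 h2
    rw [hu i h1, List.getElem_take, hw i (by omega)]

lemma pref_iter (S : Sys φ s v σ x) {u : List α} (hu : IsPrefix u x) (n : ℕ) :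
    IsPrefix ((app φ)^[n] u) x := by
  have h := prefix_of_pref hu (S.hx u.length) (ell_lt S u.length).le
  obtain ⟨t, ht⟩ := h
  apply pref_of_prefix _ (S.hx (n + u.length))
  rw [Function.iterate_add_apply, ← ht, iter_append]
  exact List.prefix_append _ _

/-- the prefix of `x` of length `i` -/
def pre (x : ℕ → α) (i : ℕ) : List α := (List.range i).map x

@[simp] lemma pre_length (i : ℕ) : (pre x i).length = i := by simp [pre]

lemma pref_pre (i : ℕ) : IsPrefix (pre x i) x := by
  intro j hj
  simp [pre]

lemma pre_succ (i : ℕ) : pre x (i + 1) = pre x i ++ [x i] := by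
  simp [pre, List.range_succ]

variable [DecidableEq α]

lemma len_iter (S : Sys φ s v σ x) (n : ℕ) (u : List α) :
    ((app φ)^[n] u).length + u.count s = u.length + u.count s * ell φ s n := by
  induction u with
  | nil =>
    have : ∀ n, (app φ)^[n] ([] : List α) = [] := by
      intro n
      induction n with
      | zero => rfl
      | succ n ih => rw [Function.iterate_succ_apply]; simpa [app] using ih
    simp [this]
  | cons c u ih =>
    rw [show (c :: u : List α) = [c] ++ u from rfl, iter_append, List.length_append,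
      List.length_append, List.count_append]
    by_cases hc : c = s
    · subst hc
      have : ((app φ)^[n] [c]).length = ell φ c n := rfl
      simp only [List.count_singleton_self, List.length_singleton, this]
      nlinarith
    · have h0 : List.count s [c] = 0 := by simp [hc]
      rw [iter_single S n c hc, h0]
      simp only [List.length_singleton, Nat.zero_add]
      omega

omit [DecidableEq α] in
/-- the image of position `i` under `φ^n` -/
lemma occ (S : Sys φ s v σ x) (n i : ℕ) (hi : x i = s) (t : ℕ) (ht : t < ell φ s n) :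
    x (((app φ)^[n] (pre x i)).length + t) = x t := by
  have h1 : IsPrefix ((app φ)^[n] (pre x (i + 1))) x := pref_iter S (pref_pre _) n
  rw [pre_succ, iter_append, hi] at h1
  have h2 := h1 (((app φ)^[n] (pre x i)).length + t) (by
    rw [List.length_append]; unfold ell at ht; omega)
  rw [← h2, List.getElem_append_right (by omega)]
  simp only [Nat.add_sub_cancel_left]
  exact S.hx n t ht

/-- arbitrarily late occurrences of long prefixes -/
lemma occ_late (S : Sys φ s v σ x) (L : ℕ) : ∃ N, L ≤ N ∧ ∀ t, t < L → x (N + t) = x t := by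
  -- the second `s`
  obtain ⟨i, hi0, hi⟩ : ∃ i, 0 < i ∧ x i = s := by
    obtain ⟨p, q, hpq⟩ := List.append_of_mem S.hv
    refine ⟨p.length + 1, by omega, ?_⟩
    have h := S.hx 1 (p.length + 1) (by
      rw [Function.iterate_one, app_single, S.h1, hpq]; simp)
    rw [← h]
    simp only [Function.iterate_one, app_single, S.h1, hpq]
    simp
  refine ⟨((app φ)^[L] (pre x i)).length, ?_, fun t ht => occ S L i hi t (ht.trans (ell_lt S L))⟩
  have h1 := len_iter S L (pre x i)
  have h0 : 1 ≤ (pre x i).count s := by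
    rw [Nat.succ_le_iff, List.count_pos_iff]
    simp only [pre, List.mem_map, List.mem_range]
    refine ⟨0, hi0, ?_⟩
    exact (S.hx 0 0 (by simp)).symm
  have h2 := ell_lt S L
  have h3 : (pre x i).count s ≤ (pre x i).length := List.count_le_length
  have h4 : ell φ s L ≤ (pre x i).count s * ell φ s L := Nat.le_mul_of_pos_left _ h0
  omega

/-- residues of the occurrences of prefixes of `x` -/
def H (x : ℕ → α) (M : ℕ) : AddSubmonoid (ZMod M) where
  carrier := {r | ∀ L, ∃ N : ℕ, (N : ZMod M) = r ∧ ∀ t, t < L → x (N + t) = x t}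
  zero_mem' := fun L => ⟨0, by simp, fun t _ => by rw [zero_add]⟩
  add_mem' := by
    intro a b ha hb L
    obtain ⟨N, h3, h4⟩ := hb L
    obtain ⟨N', h5, h6⟩ := ha (N + L)
    refine ⟨N' + N, by push_cast; rw [h5, h3], fun t ht => ?_⟩
    rw [add_assoc, h6 _ (by omega), h4 t ht]

omit [DecidableEq α] in
lemma neg_mem (M : ℕ) (hM : 0 < M) {r : ZMod M} (hr : r ∈ H x M) : -r ∈ H x M := by
  have h : -r = (M - 1) • r := by
    obtain ⟨m, rfl⟩ : ∃ m, M = m + 1 := ⟨M - 1, by omega⟩
    rw [Nat.add_sub_cancel]
    have h2 : (m + 1) • r = 0 := by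
      rw [nsmul_eq_mul, ZMod.natCast_self, zero_mul]
    rw [succ_nsmul] at h2
    exact (eq_neg_of_add_eq_zero_left h2).symm
  rw [h]
  exact AddSubmonoid.nsmul_mem _ hr _

omit [DecidableEq α] in
lemma sub_mem (M : ℕ) (hM : 0 < M) {a b : ZMod M} (ha : a ∈ H x M) (hb : b ∈ H x M) :
    a - b ∈ H x M := by
  rw [sub_eq_add_neg]; exact AddSubmonoid.add_mem _ ha (neg_mem M hM hb)

/-- the next `s` after position `i` is at `i + d` -/
def Gap (x : ℕ → α) (s : α) (i d : ℕ) : Prop :=
  x i = s ∧ 0 < d ∧ x (i + d) = s ∧ ∀ j, 0 < j → j < d → x (i + j) ≠ s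

lemma count_gap {i d : ℕ} (h : Gap x s i d) :
    (pre x (i + d)).count s = (pre x i).count s + 1 := by
  obtain ⟨h1, h2, h3, h4⟩ := h
  have key : ∀ j, j < d → (pre x (i + (j + 1))).count s = (pre x i).count s + 1 := by
    intro j
    induction j with
    | zero => intro _; rw [Nat.zero_add, pre_succ, List.count_append, h1]; simp
    | succ j ih =>
      intro hj
      rw [← add_assoc, pre_succ, List.count_append, ih (by omega)]
      have := h4 (j + 1) (by omega) hj
      simp [this]
  obtain ⟨j, rfl⟩ : ∃ j, d = j + 1 := ⟨d - 1, by omega⟩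
  exact key j (by omega)

lemma gap_diff (S : Sys φ s v σ x) {i d i' d' : ℕ} (h : Gap x s i d) (h' : Gap x s i' d')
    (M : ℕ) (hM : 0 < M) : ((d : ZMod M) - (d' : ZMod M)) ∈ H x M := by
  have : NeZero M := ⟨hM.ne'⟩
  obtain ⟨ρ, hρ⟩ := Finite.exists_infinite_fiber fun n : ℕ => (ell φ s n : ZMod M)
  have hinf := Set.infinite_coe_iff.1 hρ
  have key : ∀ i, x i = s →
      ((i : ZMod M) + ((pre x i).count s : ZMod M) * (ρ - 1)) ∈ H x M := by
    intro i hi L
    obtain ⟨n, hn, hLn⟩ := hinf.exists_gt L
    have hn' : (ell φ s n : ZMod M) = ρ := hn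
    refine ⟨((app φ)^[n] (pre x i)).length, ?_, fun t ht =>
      occ S n i hi t (by have := ell_lt S n; omega)⟩
    have h1 := len_iter S n (pre x i)
    have h2 := congrArg (Nat.cast : ℕ → ZMod M) h1
    push_cast at h2
    rw [hn', pre_length] at h2
    linear_combination h2
  have a1 := key i h.1
  have a2 := key (i + d) h.2.2.1
  have b1 := key i' h'.1
  have b2 := key (i' + d') h'.2.2.1
  rw [count_gap h] at a2
  rw [count_gap h'] at b2
  have := sub_mem M hM (sub_mem M hM a2 a1) (sub_mem M hM b2 b1)
  convert this using 1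
  push_cast
  ring

/-- automatic with two different gaps: eventually periodic -/
lemma ev_per (S : Sys φ s v σ x) {i d i' d' : ℕ} (h : Gap x s i d) (h' : Gap x s i' d')
    (hd : d' < d) (k : ℕ) (hk : 2 ≤ k) (ha : IsAutomatic k x) :
    ∃ q n0, 0 < q ∧ ∀ t, x (n0 + q + t) = x (n0 + t) := by
  obtain ⟨g, rfl⟩ : ∃ g, d = d' + g := ⟨d - d', by omega⟩
  have hg : 0 < g := by omega
  have hgH : ∀ M, 0 < M → ∀ c : ℕ, (-(((c * g : ℕ) : ℕ) : ZMod M)) ∈ H x M := by
    intro M hM c
    apply neg_mem M hM
    have := gap_diff S h h' M hM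
    rw [Nat.cast_add, add_sub_cancel_left] at this
    have h2 := AddSubmonoid.nsmul_mem _ this c
    rw [nsmul_eq_mul] at h2
    push_cast
    exact h2
  -- tuples
  have hT : {f : Fin g → ℕ → α | ∀ r, f r ∈ {y : ℕ → α | ∃ e j, j < k ^ e ∧
      y = fun n => x (k ^ e * n + j)}}.Finite := Set.Finite.pi' fun _ => ha
  let B := hT.toFinset.card
  obtain ⟨e, he⟩ : ∃ e, (B + 1) * g < k ^ e :=
    ⟨(B + 1) * g, Nat.lt_pow_self (by omega)⟩
  obtain ⟨j, hj, j', hj', hne, heq⟩ := Finset.exists_ne_map_eq_of_card_lt_of_maps_to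
    (s := Finset.range (B + 1)) (t := hT.toFinset) (by simp [B])
    (f := fun j => fun (r : Fin g) (n : ℕ) => x (k ^ e * n + (j * g + r))) (by
      intro j hj
      have hj2 : j < B + 1 := by simpa using hj
      rw [Finset.mem_coe, Set.Finite.mem_toFinset]
      intro r
      refine ⟨e, j * g + r, ?_, rfl⟩
      have := r.2
      calc j * g + r < j * g + g := by omega
        _ = (j + 1) * g := by ring
        _ ≤ (B + 1) * g := Nat.mul_le_mul_right _ hj2
        _ < k ^ e := he)
  have main : ∀ t, x (j * g + t) = x (j' * g + t) := by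
    intro t
    have hM : 0 < k ^ e := by positivity
    obtain ⟨N, hN, hN2⟩ := hgH (k ^ e) hM (t / g) (j * g + j' * g + t + 1)
    obtain ⟨n, hn⟩ : k ^ e ∣ N + t / g * g := by
      rw [← ZMod.natCast_eq_zero_iff]
      push_cast
      rw [hN]
      push_cast
      ring
    have h3 := congrFun (congrFun heq ⟨t % g, Nat.mod_lt _ hg⟩) n
    simp only [← hn] at h3
    have h4 := Nat.div_add_mod' t g
    rw [← hN2 (j * g + t) (by omega), ← hN2 (j' * g + t) (by omega)]
    convert h3 using 2 <;> omega
  rcases lt_or_gt_of_ne hne with hlt | hlt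
  · refine ⟨(j' - j) * g, j * g, Nat.mul_pos (by omega) hg, fun t => ?_⟩
    rw [main t]; congr 2
    rw [← Nat.add_mul]; congr 1; omega
  · refine ⟨(j - j') * g, j' * g, Nat.mul_pos (by omega) hg, fun t => ?_⟩
    rw [← main t]; congr 2
    rw [← Nat.add_mul]; congr 1; omega

lemma gap_eq_of_per (S : Sys φ s v σ x) {i d i' d' : ℕ} (h : Gap x s i d) (h' : Gap x s i' d')
    (hp : ∃ q n0, 0 < q ∧ ∀ t, x (n0 + q + t) = x (n0 + t)) : d = d' := by
  obtain ⟨q, n0, hq, hqq⟩ := hp
  have pure : ∃ q, 0 < q ∧ ∀ t, x (t + q) = x t := by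
    refine ⟨q, hq, fun t => ?_⟩
    obtain ⟨N, hN1, hN2⟩ := occ_late S (n0 + t + q + 1)
    rw [← hN2 t (by omega), ← hN2 (t + q) (by omega)]
    have := hqq (N + t - n0)
    convert this using 2 <;> omega
  classical
  obtain ⟨p, hp0, hp1, hmin⟩ : ∃ p, 0 < p ∧ (∀ t, x (t + p) = x t) ∧
      ∀ r, 0 < r → (∀ t, x (t + r) = x t) → p ≤ r :=
    ⟨Nat.find pure, (Nat.find_spec pure).1, (Nat.find_spec pure).2,
      fun r h1 h2 => Nat.find_min' pure ⟨h1, h2⟩⟩
  have hp1' : ∀ c t, x (t + c * p) = x t := by
    intro c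
    induction c with
    | zero => intro t; simp
    | succ c ih => intro t; rw [Nat.succ_mul, ← add_assoc, hp1, ih]
  have hgap : ∀ i d, Gap x s i d → d ≤ p := by
    intro i d hg
    by_contra hlt
    exact hg.2.2.2 p hp0 (by omega) (by rw [hp1]; exact hg.1)
  have hH : ∀ r : ℕ, (r : ZMod p) ∈ H x p → p ∣ r := by
    intro r hr
    by_contra hnd
    have h1 : 0 < r % p := Nat.pos_of_ne_zero fun h => hnd (Nat.dvd_of_mod_eq_zero h)
    have h2 := hmin (r % p) h1 (fun t => by
      obtain ⟨N, hN, hN2⟩ := hr (t + 1)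
      rw [ZMod.natCast_eq_natCast_iff] at hN
      have h3 : N % p = r % p := hN
      have h4 := Nat.div_add_mod' N p
      rw [← hN2 t (by omega), ← h3, ← hp1' (N / p) (t + N % p)]
      congr 1; omega)
    have := Nat.mod_lt r hp0
    omega
  have g1 := hgap _ _ h
  have g2 := hgap _ _ h'
  rcases lt_trichotomy d d' with hlt | heq | hlt
  · have := gap_diff S h' h p hp0
    rw [← Nat.cast_sub hlt.le] at this
    have := Nat.le_of_dvd (by omega) (hH _ this)
    have := h.2.1
    omega
  · exact heq
  · have := gap_diff S h h' p hp0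
    rw [← Nat.cast_sub hlt.le] at this
    have := Nat.le_of_dvd (by omega) (hH _ this)
    have := h'.2.1
    omega

lemma gap_eq (S : Sys φ s v σ x) {i d i' d' : ℕ} (h : Gap x s i d) (h' : Gap x s i' d')
    (k : ℕ) (hk : 2 ≤ k) (ha : IsAutomatic k x) : d = d' := by
  rcases lt_trichotomy d d' with hlt | heq | hlt
  · exact gap_eq_of_per S h h' (ev_per S h' h hlt k hk ha)
  · exact heq
  · exact gap_eq_of_per S h h' (ev_per S h h' hlt k hk ha)

lemma exists_gap (S : Sys φ s v σ x) (i : ℕ) (hi : x i = s) : ∃ d, Gap x s i d := by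
  classical
  have hex : ∃ d, 0 < d ∧ x (i + d) = s := by
    obtain ⟨N, h1, h2⟩ := occ_late S (i + 1)
    refine ⟨N - i, by omega, ?_⟩
    rw [show i + (N - i) = N + 0 by omega, h2 0 (by omega)]
    exact (S.hx 0 0 (by simp)).symm
  refine ⟨Nat.find hex, hi, (Nat.find_spec hex).1, (Nat.find_spec hex).2, fun j h1 h2 h3 => ?_⟩
  exact Nat.find_min hex h2 ⟨h1, h3⟩

lemma spacing_of_gaps (S : Sys φ s v σ x)
    (hgaps : ∀ i d i' d', Gap x s i d → Gap x s i' d' → d = d') :
    ∃ d, 0 < d ∧ ∀ n, x n = s ↔ d ∣ n := by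
  have h0 : x 0 = s := (S.hx 0 0 (by simp)).symm
  obtain ⟨d, hd⟩ := exists_gap S 0 h0
  have hall : ∀ i, x i = s → Gap x s i d := by
    intro i hi
    obtain ⟨d', hd'⟩ := exists_gap S i hi
    rw [hgaps _ _ _ _ hd hd']; exact hd'
  have hm : ∀ m, x (m * d) = s := by
    intro m
    induction m with
    | zero => simpa using h0
    | succ m ih => rw [Nat.succ_mul]; exact (hall _ ih).2.2.1
  refine ⟨d, hd.2.1, fun n => ⟨fun hn => ?_, ?_⟩⟩
  · by_contra hnd
    have h1 : 0 < n % d := Nat.pos_of_ne_zero fun h => hnd (Nat.dvd_of_mod_eq_zero h)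
    have h2 := (hall _ (hm (n / d))).2.2.2 (n % d) h1 (Nat.mod_lt _ hd.2.1)
    rw [Nat.div_add_mod'] at h2
    exact h2 hn
  · rintro ⟨m, rfl⟩
    rw [mul_comm]; exact hm m

lemma spacing (S : Sys φ s v σ x) (k : ℕ) (hk : 2 ≤ k) (ha : IsAutomatic k x) :
    ∃ d, 0 < d ∧ ∀ n, x n = s ↔ d ∣ n :=
  spacing_of_gaps S fun _ _ _ _ h h' => gap_eq S h h' k hk ha

omit [DecidableEq α] in
lemma ell_one (S : Sys φ s v σ x) : ell φ s 1 = v.length + 1 := by
  simp [ell, app_single, S.h1]

lemma dvd_of_spacing (S : Sys φ s v σ x) {d : ℕ} (hd : 0 < d) (h : ∀ n, x n = s ↔ d ∣ n) :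
    d ∣ v.length ∧ ∀ i (hi : i < (s :: v).length), ((s :: v)[i] = s ↔ d ∣ i) := by
  have hw : ∀ i (hi : i < (s :: v).length), (s :: v)[i] = x i := by
    intro i hi
    have := S.hx 1 i (by rw [Function.iterate_one, app_single, S.h1]; exact hi)
    rw [← this]
    simp only [Function.iterate_one, app_single, S.h1]
  refine ⟨?_, fun i hi => by rw [hw i hi]; exact h i⟩
  have h1 := occ S 1 d ((h d).2 dvd_rfl) 0 (by have := ell_lt S 1; omega)
  rw [(h 0).2 (dvd_zero _), Nat.add_zero, h] at h1
  have h2 := len_iter S 1 (pre x d)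
  have h3 : (pre x d).count s = 1 := by
    have hg : Gap x s 0 d := ⟨(h 0).2 (dvd_zero _), hd, (h _).2 (by simp), fun j h1 h2 h3 => by
      rw [h, Nat.zero_add] at h3
      exact absurd (Nat.le_of_dvd h1 h3) (by omega)⟩
    have := count_gap hg
    rw [Nat.zero_add] at this
    rw [this]; simp [pre]
  rw [h3, ell_one S, pre_length] at h2
  have h4 : ((app φ)^[1] (pre x d)).length = d + v.length := by omega
  rw [h4] at h1
  exact (Nat.dvd_add_right dvd_rfl).1 h1

/-- words whose `s` sit exactly at the multiples of `d` -/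
def Good (s : α) (d : ℕ) (u : List α) : Prop := ∀ i (hi : i < u.length), (u[i] = s ↔ d ∣ i)

lemma good_app (S : Sys φ s v σ x) {d : ℕ} (hd : d ∣ v.length) (hw : Good s d (s :: v))
    (u : List α) (hu : Good s d u) : Good s d (app φ u) := by
  induction u using List.reverseRecOn with
  | nil => intro i hi; simp [app] at hi
  | append_singleton u c ih =>
    have hu' : Good s d u := fun i hi => by
      have := hu i (by rw [List.length_append]; omega)
      rwa [List.getElem_append_left hi] at this
    have hlast := hu u.length (by simp)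
    rw [List.getElem_append_right le_rfl] at hlast
    simp only [Nat.sub_self, List.getElem_cons_zero] at hlast
    have hlen : ∀ n : ℕ, d ∣ (app φ u).length + n ↔ d ∣ u.length + n := by
      intro n
      have h1 := len_iter S 1 u
      rw [ell_one S, Function.iterate_one] at h1
      have h2 : (app φ u).length = u.length + u.count s * v.length := by nlinarith
      rw [h2, show u.length + List.count s u * v.length + n
        = List.count s u * v.length + (u.length + n) by ring]
      exact Nat.dvd_add_right (Dvd.dvd.mul_left hd _)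
    have happ : app φ (u ++ [c]) = app φ u ++ φ c := by simp [app]
    intro i hi
    by_cases hlt : i < (app φ u).length
    · have := ih hu' i hlt
      simp only [happ]
      rw [List.getElem_append_left hlt]; exact this
    · obtain ⟨t, rfl⟩ : ∃ t, i = (app φ u).length + t := ⟨i - (app φ u).length, by omega⟩
      simp only [happ]
      rw [List.getElem_append_right (by omega), hlen t]
      simp only [Nat.add_sub_cancel_left]
      rw [happ, List.length_append] at hi
      by_cases hc : c = s
      · have hds : d ∣ u.length := hlast.1 hc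
        subst hc
        simp only [S.h1]
        rw [hw t (by rw [S.h1] at hi; omega)]
        exact (Nat.dvd_add_right hds).symm
      · have hds : ¬ d ∣ u.length := fun h => hc (hlast.2 h)
        simp only [S.h2 c hc] at hi ⊢
        simp only [List.length_singleton] at hi
        have ht : t = 0 := by omega
        subst ht
        simp only [List.getElem_cons_zero, Nat.add_zero]
        exact iff_of_false (S.hσ c hc) hds

lemma spacing_of_good (S : Sys φ s v σ x) {d : ℕ} (hd : d ∣ v.length) (hw : Good s d (s :: v)) :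
    ∀ n, x n = s ↔ d ∣ n := by
  have h : ∀ n, Good s d ((app φ)^[n] [s]) := by
    intro n
    induction n with
    | zero =>
      intro i hi
      have : i = 0 := by simpa using hi
      subst this
      simp
    | succ n ih => rw [Function.iterate_succ_apply']; exact good_app S hd hw _ ih
  intro n
  rw [← S.hx n n (ell_lt S n)]
  exact h n n (ell_lt S n)

lemma count_mul {d : ℕ} (hd : 0 < d) (h : ∀ n, x n = s ↔ d ∣ n) (m r : ℕ) (hr0 : 0 < r)
    (hr : r ≤ d) : (pre x (m * d + r)).count s = m + 1 := by
  have hsucc : ∀ n, (pre x (n + 1)).count s = (pre x n).count s + if d ∣ n then 1 else 0 := by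
    intro n
    rw [pre_succ, List.count_append]
    by_cases hn : d ∣ n
    · rw [(h n).2 hn]; simp [hn]
    · have : x n ≠ s := fun h' => hn ((h n).1 h')
      simp [hn, this]
  have h1 : ∀ m, (pre x (m * d)).count s = m → ∀ r, r < d →
      (pre x (m * d + (r + 1))).count s = m + 1 := by
    intro m hm r
    induction r with
    | zero => intro _; rw [Nat.zero_add, hsucc, hm]; simp
    | succ r ih =>
      intro hr
      rw [← add_assoc, hsucc, ih (by omega), if_neg]
      intro h'
      rw [Nat.dvd_add_right (Dvd.intro_left _ rfl)] at h'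
      exact absurd (Nat.le_of_dvd (by omega) h') (by omega)
  have h2 : ∀ m, (pre x (m * d)).count s = m := by
    intro m
    induction m with
    | zero => simp [pre]
    | succ m ih =>
      have := h1 m ih (d - 1) (by omega)
      rw [Nat.succ_mul]
      rwa [show d - 1 + 1 = d by omega] at this
  have := h1 m (h2 m) (r - 1) (by omega)
  rwa [show r - 1 + 1 = r by omega] at this

lemma count_word {d : ℕ} (hd : 0 < d) (S : Sys φ s v σ x) (h : ∀ n, x n = s ↔ d ∣ n) :
    v.length + d = d * (s :: v).count s := by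
  obtain ⟨⟨m, hm⟩, -⟩ := dvd_of_spacing S hd h
  have h1 : (s :: v) = pre x (m * d + 1) := by
    apply List.ext_getElem
    · simp [hm, mul_comm]
    · intro i h1 h2
      have := S.hx 1 i (by rw [Function.iterate_one, app_single, S.h1]; exact h1)
      simp only [pre, List.getElem_map, List.getElem_range]
      rw [← this]
      simp only [Function.iterate_one, app_single, S.h1]
  rw [h1, count_mul hd h m 1 one_pos hd, hm]
  ring

lemma block_w {d : ℕ} (hd : 0 < d) (S : Sys φ s v σ x) (h : ∀ n, x n = s ↔ d ∣ n) (m t : ℕ)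
    (ht : t < v.length + 1) : x (d * (s :: v).count s * m + t) = x t := by
  have h1 := occ S 1 (m * d) ((h _).2 (Dvd.intro_left _ rfl)) t (by rw [ell_one S]; exact ht)
  have h2 := len_iter S 1 (pre x (m * d))
  have h3 : (pre x (m * d)).count s = m := by
    have := count_mul hd h m 1 one_pos hd
    rw [pre_succ, List.count_append, (h _).2 (Dvd.intro_left _ rfl)] at this
    simpa using this
  rw [h3, ell_one S, pre_length] at h2
  rw [← h1, ← count_word hd S h]
  congr 1
  nlinarith

lemma block_σ {d : ℕ} (hd : 0 < d) (S : Sys φ s v σ x) (h : ∀ n, x n = s ↔ d ∣ n) (m r : ℕ)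
    (hr0 : 0 < r) (hr : r < d) :
    x (d * (s :: v).count s * m + (v.length + r)) = σ (x (m * d + r)) := by
  have hne : x (m * d + r) ≠ s := by
    rw [Ne, h, Nat.dvd_add_right (Dvd.intro_left _ rfl)]
    intro h'
    exact absurd (Nat.le_of_dvd (by omega) h') (by omega)
  have h1 := pref_iter S (pref_pre (m * d + r + 1)) 1
  rw [pre_succ, iter_append, iter_single S 1 _ hne] at h1
  have h2 := h1 ((app φ)^[1] (pre x (m * d + r))).length (by simp)
  rw [List.getElem_append_right le_rfl] at h2
  simp only [Nat.sub_self, List.getElem_cons_zero, Function.iterate_one] at h2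
  rw [h2, ← count_word hd S h]
  have h3 := len_iter S 1 (pre x (m * d + r))
  rw [count_mul hd h m r hr0 hr.le, ell_one S, pre_length, Function.iterate_one] at h3
  congr 1
  nlinarith

omit [DecidableEq α] in
lemma auto_of_spacing [Finite α] {d a l : ℕ} (hd : 0 < d) (ha : 0 < a) (hl : l + d = d * a)
    (h1 : ∀ m t, t < l + 1 → x (d * a * m + t) = x t)
    (h2 : ∀ m r, 0 < r → r < d → x (d * a * m + (l + r)) = σ (x (m * d + r))) :
    IsAutomatic a x := by
  classical
  -- the building blocks
  let B : Set (ℕ → α) := Set.range (fun c : α => fun _ => c) ∪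
    Set.range (fun p : (α → α) × Fin d => fun n => p.1 (x (n * d + p.2)))
  have hB : B.Finite := (Set.finite_range _).union (Set.finite_range _)
  have hσB : ∀ z ∈ B, (fun n => σ (z n)) ∈ B := by
    rintro z (⟨c, rfl⟩ | ⟨p, rfl⟩)
    · exact Or.inl ⟨σ c, rfl⟩
    · exact Or.inr ⟨(σ ∘ p.1, p.2), rfl⟩
  have key : ∀ e N, N < d * a ^ e → (fun n => x (d * a ^ e * n + N)) ∈ B := by
    intro e
    induction e with
    | zero =>
      intro N hN
      rw [pow_zero, mul_one] at hN
      refine Or.inr ⟨(id, ⟨N, hN⟩), ?_⟩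
      funext n
      simp [mul_comm]
    | succ e ih =>
      intro N hN
      have hda : 0 < d * a := Nat.mul_pos hd ha
      have e1 : ∀ n, d * a ^ (e + 1) * n + N = d * a * (a ^ e * n + N / (d * a)) + N % (d * a) := by
        intro n
        have := Nat.div_add_mod N (d * a)
        rw [pow_succ, Nat.mul_add, add_assoc, this]
        ring
      have hmod := Nat.mod_lt N hda
      by_cases hc : N % (d * a) < l + 1
      · refine Or.inl ⟨x (N % (d * a)), ?_⟩
        funext n
        rw [e1, h1 _ _ hc]
      · obtain ⟨r, hr⟩ : ∃ r, N % (d * a) = l + r := ⟨N % (d * a) - l, by omega⟩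
        have hr0 : 0 < r := by omega
        have hrd : r < d := by omega
        have hdiv : N / (d * a) < a ^ e := by
          rw [Nat.div_lt_iff_lt_mul hda]
          calc N < d * a ^ (e + 1) := hN
            _ = a ^ e * (d * a) := by ring
        have hN' : N / (d * a) * d + r < d * a ^ e := by
          calc N / (d * a) * d + r < N / (d * a) * d + d := by omega
            _ = (N / (d * a) + 1) * d := by ring
            _ ≤ a ^ e * d := Nat.mul_le_mul_right _ hdiv
            _ = d * a ^ e := mul_comm _ _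
        have := hσB _ (ih _ hN')
        convert this using 1
        funext n
        rw [e1, hr, h2 _ _ hr0 hrd]
        congr 2
        ring
  -- tuples
  have hT : {f : Fin d → ℕ → α | ∀ r, f r ∈ B}.Finite := Set.Finite.pi' fun _ => hB
  refine (hT.image (fun f => fun n => f ⟨n % d, Nat.mod_lt _ hd⟩ (n / d))).subset ?_
  rintro y ⟨e, j, hj, rfl⟩
  refine ⟨fun r n => x (d * a ^ e * n + (a ^ e * r + j)), ?_, ?_⟩
  · intro r
    apply key
    have h3 : (r : ℕ) + 1 ≤ d := r.2
    calc a ^ e * r + j < a ^ e * r + a ^ e := by omega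
      _ = a ^ e * (r + 1) := by ring
      _ ≤ a ^ e * d := Nat.mul_le_mul_left _ h3
      _ = d * a ^ e := mul_comm _ _
  · funext n
    have := Nat.div_add_mod n d
    simp only
    congr 1
    conv_rhs => rw [← this]
    ring

theorem equiv [Finite α] (S : Sys φ s v σ x) :
    ((∃ k, 2 ≤ k ∧ IsAutomatic k x) ↔ IsAutomatic ((s :: v).count s) x) ∧
    ((∃ k, 2 ≤ k ∧ IsAutomatic k x) ↔ ∃ d, 0 < d ∧ ∀ n, x n = s ↔ d ∣ n) ∧
    ((∃ k, 2 ≤ k ∧ IsAutomatic k x) ↔ ∃ d, 0 < d ∧ d ∣ v.length ∧
      ∀ i (hi : i < (s :: v).length), ((s :: v)[i] = s ↔ d ∣ i)) := by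
  have hcount : 2 ≤ (s :: v).count s := by
    rw [List.count_cons_self]
    have := List.count_pos_iff.2 S.hv
    omega
  have h12 : (∃ k, 2 ≤ k ∧ IsAutomatic k x) → ∃ d, 0 < d ∧ ∀ n, x n = s ↔ d ∣ n :=
    fun ⟨k, hk, ha⟩ => spacing S k hk ha
  have h23 : (∃ d, 0 < d ∧ ∀ n, x n = s ↔ d ∣ n) → IsAutomatic ((s :: v).count s) x := by
    rintro ⟨d, hd, h⟩
    exact auto_of_spacing hd (by omega) (count_word hd S h)
      (fun m t ht => block_w hd S h m t ht) (fun m r h0 hr => block_σ hd S h m r h0 hr)
  have h31 : IsAutomatic ((s :: v).count s) x → ∃ k, 2 ≤ k ∧ IsAutomatic k x :=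
    fun h => ⟨_, hcount, h⟩
  refine ⟨⟨fun h => h23 (h12 h), h31⟩, ⟨h12, fun h => h31 (h23 h)⟩, ⟨fun h => ?_, fun h => ?_⟩⟩
  · obtain ⟨d, hd, h'⟩ := h12 h
    exact ⟨d, hd, dvd_of_spacing S hd h'⟩
  · obtain ⟨d, hd, h1, h2⟩ := h
    exact h31 (h23 ⟨d, hd, spacing_of_good S h1 h2⟩)

end

lemma exists_limit (W : ℕ → List α) (h1 : ∀ n, W n <+: W (n + 1))
    (h2 : ∀ n, n < (W n).length) : ∃! x : ℕ → α, ∀ n, IsPrefix (W n) x := by
  have mono : ∀ m n, m ≤ n → W m <+: W n := by
    intro m n h
    induction h with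
    | refl => exact List.prefix_rfl
    | step _ ih => exact ih.trans (h1 _)
  refine ⟨fun i => (W i)[i]'(h2 i), fun n i hi => ?_, fun y hy => ?_⟩
  · rcases le_total n i with h | h
    · exact (mono _ _ h).getElem hi
    · exact ((mono _ _ h).getElem (h2 i)).symm
  · funext i
    exact (hy i i (h2 i)).symm

/-- the morphism of the problem -/
def φ0 (c : ℕ) : List ℕ := if c = 1 then [1, 2, 1, 2, 2, 1, 2, 1] else [2]

lemma X_iter (n : ℕ) : app φ0 (X n) = X (n + 1) ∧ app φ0 (X n).reverse = (X (n + 1)).reverse := by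
  have hrev : ∀ u : List ℕ, app φ0 u.reverse = (app φ0 u).reverse := by
    intro u
    induction u with
    | nil => rfl
    | cons c u ih =>
      have e1 : app φ0 (c :: u).reverse = app φ0 u.reverse ++ φ0 c := by simp [app]
      have e2 : app φ0 (c :: u) = φ0 c ++ app φ0 u := by simp [app]
      rw [e1, e2, ih, List.reverse_append]
      congr 1
      unfold φ0
      split_ifs <;> rfl
  have main : ∀ n, app φ0 (X n) = X (n + 1) := by
    intro n
    induction n with
    | zero => rfl
    | succ n ih =>
      have e : app φ0 (X (n + 1)) = app φ0 (X n) ++ app φ0 (X n) ++ app φ0 (X n).reverse ++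
          app φ0 (X n).reverse ++ [2] := by
        conv_lhs => rw [X]
        simp [app, φ0]
      rw [e, hrev, ih]
      rfl
  exact ⟨main n, by rw [hrev, main n]⟩

/-- **Automaticity of fixed points of morphisms with one growing letter.**

Let `φ` be a morphism over a finite alphabet, `s` a letter with `φ(s) = w = s v`, where `s` occurs
in `v`, and let `φ` map every other letter to a single letter different from `s`. Let `x` be the
fixed point `lim φ^n(s)` (there is exactly one infinite word with all the prefixes `φ^n(s)`). Then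
the following are equivalent: `x` is `k`-automatic for some `k ≥ 2`; `x` is `a`-automatic, `a` the
number of `s` in `w`; the positions of `s` in `x` are the multiples of some `d ≥ 1`; the positions
of `s` in the finite word `w` (from 0) are the multiples of some `d ≥ 1`, the last one included; and
if there is only one letter besides `s`, also: `x` is periodic.

The word of the problem, with `φ(1) = 12122121`, `φ(2) = 2`, is not `k`-automatic, for any
`k ≥ 2`. -/
theorem result :
    (∀ (α : Type) [Finite α] [DecidableEq α] (φ : α → List α) (s : α) (v : List α),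
      φ s = s :: v → s ∈ v → (∀ c, c ≠ s → ∃ c', c' ≠ s ∧ φ c = [c']) →
      (∃! x : ℕ → α, ∀ n, IsPrefix ((app φ)^[n] [s]) x) ∧
      ∀ x : ℕ → α, (∀ n, IsPrefix ((app φ)^[n] [s]) x) →
        ((∃ k, 2 ≤ k ∧ IsAutomatic k x) ↔ IsAutomatic ((s :: v).count s) x) ∧
        ((∃ k, 2 ≤ k ∧ IsAutomatic k x) ↔ ∃ d, 0 < d ∧ ∀ n, x n = s ↔ d ∣ n) ∧
        ((∃ k, 2 ≤ k ∧ IsAutomatic k x) ↔ ∃ d, 0 < d ∧ d ∣ v.length ∧
          ∀ i (hi : i < (s :: v).length), ((s :: v)[i] = s ↔ d ∣ i)) ∧
        ((∀ c c', c ≠ s → c' ≠ s → c = c') →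
          ((∃ k, 2 ≤ k ∧ IsAutomatic k x) ↔ ∃ p, 0 < p ∧ ∀ n, x (n + p) = x n))) ∧
    (∃! x : ℕ → ℕ, ∀ n, IsPrefix (X n) x) ∧
    ∀ x : ℕ → ℕ, (∀ n, IsPrefix (X n) x) → ∀ k, 2 ≤ k → ¬ IsAutomatic k x := by
  refine ⟨?_, ?_, ?_⟩
  · intro α _ _ φ s v h1 hv h2
    choose! σ hσ h2 using h2
    have hfix : ∃! x : ℕ → α, ∀ n, IsPrefix ((app φ)^[n] [s]) x := by
      have hchain : ∀ n, (app φ)^[n] [s] <+: (app φ)^[n + 1] [s] := by
        intro n
        rw [Function.iterate_succ_apply, app_single, h1, show (s :: v : List α) = [s] ++ v from rfl,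
          iter_append]
        exact List.prefix_append _ _
      apply exists_limit _ hchain
      intro n
      have pos : ∀ n c, 1 ≤ ((app φ)^[n] [c]).length := by
        intro n
        induction n with
        | zero => intro c; simp
        | succ n ih =>
          intro c
          rw [Function.iterate_succ_apply, app_single]
          by_cases hc : c = s
          · subst hc
            rw [h1, show (c :: v : List α) = [c] ++ v from rfl, iter_append, List.length_append]
            have := ih c
            omega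
          · rw [h2 c hc]; exact ih _
      induction n with
      | zero => simp
      | succ n ih =>
        rw [Function.iterate_succ_apply, app_single, h1, show (s :: v : List α) = [s] ++ v from rfl,
          iter_append, List.length_append]
        obtain ⟨p, q, hpq⟩ := List.append_of_mem hv
        rw [hpq, show p ++ s :: q = p ++ ([s] ++ q) from rfl, iter_append, iter_append,
          List.length_append, List.length_append]
        omega
    refine ⟨hfix, fun x hx => ?_⟩
    have S : Sys φ s v σ x := ⟨hv, hσ, h1, h2, hx⟩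
    obtain ⟨e1, e2, e3⟩ := equiv S
    refine ⟨e1, e2, e3, fun hone => ⟨fun h => ?_, fun h => ?_⟩⟩
    · obtain ⟨d, hd, h'⟩ := e2.1 h
      refine ⟨d, hd, fun n => ?_⟩
      by_cases hn : d ∣ n
      · rw [(h' n).2 hn, (h' (n + d)).2 (hn.add dvd_rfl)]
      · apply hone
        · rw [Ne, h']; intro h3; exact hn ((Nat.dvd_add_left dvd_rfl).1 h3)
        · rw [Ne, h']; exact hn
    · obtain ⟨p, hp, hpp⟩ := h
      apply e2.2
      apply spacing_of_gaps S
      intro i d i' d' g g'
      exact gap_eq_of_per S g g' ⟨p, 0, hp, fun t => by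
        rw [Nat.zero_add, Nat.zero_add, Nat.add_comm, hpp]⟩
  · apply exists_limit
    · intro n
      show X n <+: X n ++ X n ++ (X n).reverse ++ (X n).reverse ++ [2]
      simp only [List.append_assoc]
      exact List.prefix_append _ _
    · intro n
      induction n with
      | zero => decide
      | succ n ih => simp [X]; omega
  · intro x hx k hk ha
    have hiter : ∀ n, (app φ0)^[n] [1, 2] = X n := by
      intro n
      induction n with
      | zero => rfl
      | succ n ih => rw [Function.iterate_succ_apply', ih, (X_iter n).1]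
    have S : Sys φ0 1 [2, 1, 2, 2, 1, 2, 1] (fun _ => 2) x := by
      refine ⟨by simp, fun c _ => by simp, rfl, fun c hc => by simp [φ0, hc], fun n => ?_⟩
      apply pref_of_prefix _ (hx n)
      rw [← hiter n, show ([1, 2] : List ℕ) = [1] ++ [2] from rfl, iter_append]
      exact List.prefix_append _ _
    obtain ⟨d, hd, h⟩ := spacing S k hk ha
    obtain ⟨h1, h2⟩ := dvd_of_spacing S hd h
    have h3 : d ∣ 2 := (h2 2 (by simp)).1 rfl
    have h4 : d ∣ 7 := h1
    have h5 : d = 1 := Nat.dvd_one.1 ((Nat.dvd_add_right (h3.mul_left 3)).1 (show d ∣ 3 * 2 + 1 from h4))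
    have h6 := (h2 1 (by simp)).2 (by rw [h5])
    simp at h6

end Pool.Agent.Results.MP_ad6ded_lc.OneGrowingLetter
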